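import Pool.Agent.MP_098ecc_co.H66.Defs

/-! Eulerian planar maps given by rotation systems and pairs of face permutations. -/

set_option autoImplicit false

namespace Pool.Agent.MP_098ecc_co.H66

open Equiv Function
open Pool.Agent.MP_098ecc_co.H85 (cycles EMap)

section General

variable {X Y : Type}

theorem rel_iff (π : Perm X) (x y : X) :
    MulAction.orbitRel (Subgroup.zpowers π) X x y ↔ ∃ k : ℤ, (π ^ k) y = x :=
  ⟨fun ⟨⟨_, k, hk⟩, h⟩ => ⟨k, by subst hk; exact h⟩,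
    fun ⟨k, h⟩ => ⟨⟨π ^ k, k, rfl⟩, h⟩⟩

theorem semi_zpow {π : Perm X} {π' : Perm Y} {j : X → Y} (h : ∀ x, π' (j x) = j (π x)) (k : ℤ)
    (x : X) : (π' ^ k) (j x) = j ((π ^ k) x) := by
  induction k using Int.induction_on generalizing x with
  | zero => rfl
  | succ k ih => rw [zpow_add_one, zpow_add_one, Perm.mul_apply, Perm.mul_apply, h, ih]
  | pred k ih =>
    rw [zpow_sub_one, zpow_sub_one, Perm.mul_apply, Perm.mul_apply, ← ih]
    congr 1
    rw [Perm.inv_eq_iff_eq, h]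
    simp

theorem cycles_eq {π : Perm X} {π' : Perm Y} (j : X → Y)
    (h : ∀ x x', (∃ k : ℤ, (π ^ k) x = x') ↔ ∃ k : ℤ, (π' ^ k) (j x) = j x')
    (hs : ∀ y, ∃ x, ∃ k : ℤ, (π' ^ k) y = j x) : cycles π = cycles π' := by
  refine Nat.card_congr (Equiv.ofBijective (Quotient.map' j fun a b hab =>
    (rel_iff _ _ _).2 ((h b a).1 ((rel_iff _ _ _).1 hab))) ⟨?_, ?_⟩)
  · rintro ⟨a⟩ ⟨b⟩ hab
    exact Quotient.sound' ((rel_iff _ _ _).2 ((h b a).2 ((rel_iff _ _ _).1 (Quotient.exact' hab))))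
  · rintro ⟨y⟩
    obtain ⟨x, hx⟩ := hs y
    exact ⟨Quotient.mk'' x, Quotient.sound' ((rel_iff _ _ _).2 hx)⟩

theorem cycles_congr {π : Perm X} {π' : Perm Y} (u : X ≃ Y) (h : ∀ x, π' (u x) = u (π x)) :
    cycles π = cycles π' :=
  cycles_eq u (fun x x' => by simp only [semi_zpow h, u.apply_eq_iff_eq])
    fun y => ⟨u.symm y, 0, by simp⟩

theorem period_eq {π : Perm X} {π' : Perm Y} {j : X → Y} (hj : Injective j)
    (h : ∀ x, π' (j x) = j (π x)) (x : X) : minimalPeriod π' (j x) = minimalPeriod π x := by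
  refine minimalPeriod_eq_minimalPeriod_iff.2 fun k => ?_
  simp only [IsPeriodicPt, IsFixedPt, Perm.iterate_eq_pow, ← zpow_natCast, semi_zpow h, hj.eq_iff]

theorem pretrans_of_map [Finite X] {ρ α : Perm X}
    (h : MulAction.IsPretransitive (Subgroup.closure {ρ, α}) X) (H : Subgroup (Perm Y)) (j : X → Y)
    (hρ : ∀ x, ∃ g ∈ H, g (j x) = j (ρ x)) (hα : ∀ x, ∃ g ∈ H, g (j x) = j (α x))
    (hs : ∀ y, ∃ x, ∃ g ∈ H, g (j x) = y) : MulAction.IsPretransitive H Y := by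
  refine ⟨fun y y' => ?_⟩
  obtain ⟨x, g, hg, rfl⟩ := hs y
  obtain ⟨x', g', hg', rfl⟩ := hs y'
  obtain ⟨k, hk, e⟩ := trans_ind h (fun z => ∃ k ∈ H, k (j x) = j z) (x := x) ⟨1, one_mem _, rfl⟩
    (fun z ⟨k, hk, e⟩ => let ⟨l, hl, e'⟩ := hρ z
      ⟨l * k, mul_mem hl hk, by rw [Perm.mul_apply, e, e']⟩)
    (fun z ⟨k, hk, e⟩ => let ⟨l, hl, e'⟩ := hα z
      ⟨l * k, mul_mem hl hk, by rw [Perm.mul_apply, e, e']⟩) x'
  refine ⟨⟨g' * k * g⁻¹, mul_mem (mul_mem hg' hk) (inv_mem hg)⟩, ?_⟩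
  change (g' * k * g⁻¹) (g (j x)) = _
  simp [e]

theorem even_period {ρ : Perm X} {c : X → Bool} (h : ∀ x, c (ρ x) ≠ c x) (x : X) :
    Even (minimalPeriod ρ x) := by
  have key : ∀ k, c (ρ^[k] x) = c x ↔ Even k := fun k => by
    induction k with
    | zero => simp
    | succ k ih =>
      rw [iterate_succ_apply', Nat.even_add_one, ← ih]
      have := h (ρ^[k] x)
      revert this
      cases c (ρ (ρ^[k] x)) <;> cases c (ρ^[k] x) <;> cases c x <;> simp
  exact (key _).1 (by rw [iterate_minimalPeriod])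

theorem mem_left (ρ α : Perm X) : ρ ∈ Subgroup.closure {ρ, α} :=
  Subgroup.subset_closure (by simp)

theorem mem_right (ρ α : Perm X) : α ∈ Subgroup.closure {ρ, α} :=
  Subgroup.subset_closure (by simp)

end General

section Model

variable {E : Type}

/-- Reversal. -/
def a0 (E : Type) : Perm (E × Bool) := Equiv.prodCongr (Equiv.refl E) Equiv.boolNot

/-- Faces. -/
def f0 (σ τ : Perm E) : Perm (E × Bool) := Equiv.prodCongrLeft fun b => cond b σ τ

/-- Rotation. -/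
def r0 (σ τ : Perm E) : Perm (E × Bool) := f0 σ τ * a0 E

@[simp] theorem a0_apply (e : E) (b : Bool) : a0 E (e, b) = (e, !b) := rfl
@[simp] theorem f0_true (σ τ : Perm E) (e : E) : f0 σ τ (e, true) = (σ e, true) := rfl
@[simp] theorem f0_false (σ τ : Perm E) (e : E) : f0 σ τ (e, false) = (τ e, false) := rfl
@[simp] theorem r0_true (σ τ : Perm E) (e : E) : r0 σ τ (e, true) = (τ e, false) := rfl
@[simp] theorem r0_false (σ τ : Perm E) (e : E) : r0 σ τ (e, false) = (σ e, true) := rfl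

theorem r0_a0 (σ τ : Perm E) (x : E × Bool) : r0 σ τ (a0 E x) = f0 σ τ x := by
  obtain ⟨e, _ | _⟩ := x <;> rfl

theorem cycles_f0 (σ τ : Perm E) [Finite E] : cycles (f0 σ τ) = cycles σ + cycles τ := by
  have h1 := semi_zpow (j := fun e => (e, true)) (f0_true σ τ)
  have h2 := semi_zpow (j := fun e => (e, false)) (f0_false σ τ)
  rw [cycles, cycles, cycles, ← Nat.card_sum]
  refine (Nat.card_congr (Equiv.ofBijective (Sum.elim
    (Quotient.map' (fun e => (e, true)) fun a b hab => ?_)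
    (Quotient.map' (fun e => (e, false)) fun a b hab => ?_)) ⟨?_, ?_⟩)).symm
  · obtain ⟨k, hk⟩ := (rel_iff _ _ _).1 hab
    exact (rel_iff _ _ _).2 ⟨k, by rw [h1, hk]⟩
  · obtain ⟨k, hk⟩ := (rel_iff _ _ _).1 hab
    exact (rel_iff _ _ _).2 ⟨k, by rw [h2, hk]⟩
  · rintro (⟨⟨a⟩⟩ | ⟨⟨a⟩⟩) (⟨⟨b⟩⟩ | ⟨⟨b⟩⟩) hab <;>
      obtain ⟨k, hk⟩ := (rel_iff _ _ _).1 (Quotient.exact' hab)
    · rw [h1] at hk
      exact congrArg Sum.inl (Quotient.sound' ((rel_iff _ _ _).2 ⟨k, (Prod.ext_iff.1 hk).1⟩))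
    · rw [h2] at hk
      simp at hk
    · rw [h1] at hk
      simp at hk
    · rw [h2] at hk
      exact congrArg Sum.inr (Quotient.sound' ((rel_iff _ _ _).2 ⟨k, (Prod.ext_iff.1 hk).1⟩))
  · rintro ⟨e, _ | _⟩
    · exact ⟨Sum.inr (Quotient.mk'' e), rfl⟩
    · exact ⟨Sum.inl (Quotient.mk'' e), rfl⟩

theorem cycles_r0 (σ τ : Perm E) : cycles (σ * τ) = cycles (r0 σ τ) := by
  have h1 := semi_zpow (π := σ * τ) (π' := r0 σ τ ^ (2 : ℤ)) (j := fun e => (e, true))
    fun e => by rw [zpow_two]; rfl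
  refine cycles_eq (fun e => (e, true)) (fun e e' => ⟨?_, ?_⟩) ?_
  · rintro ⟨k, hk⟩
    exact ⟨2 * k, by rw [zpow_mul, h1, hk]⟩
  · rintro ⟨k, hk⟩
    obtain ⟨q, rfl | rfl⟩ := Int.even_or_odd' k
    · rw [zpow_mul, h1] at hk
      exact ⟨q, (Prod.ext_iff.1 hk).1⟩
    · rw [add_comm, zpow_one_add, Perm.mul_apply, zpow_mul, h1] at hk
      simp at hk
  · rintro ⟨e, _ | _⟩
    · exact ⟨σ e, 1, rfl⟩
    · exact ⟨e, 0, rfl⟩

theorem exists_f0 [Finite E] (F : Perm (E × Bool)) (h : ∀ x, (F x).2 = x.2) :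
    ∃ σ τ, F = f0 σ τ := by
  have hi : ∀ b, Bijective fun e => (F (e, b)).1 := fun b =>
    Finite.injective_iff_bijective.1 fun e e' he => by
      have := F.injective (Prod.ext he ((h (e, b)).trans (h (e', b)).symm))
      exact (Prod.ext_iff.1 this).1
  refine ⟨Equiv.ofBijective _ (hi true), Equiv.ofBijective _ (hi false), Equiv.ext ?_⟩
  rintro ⟨e, _ | _⟩
  · exact Prod.ext rfl (h _)
  · exact Prod.ext rfl (h _)

variable {X : Type} {ρ α : Perm X} {σ τ : Perm E} {u : E × Bool ≃ X}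

theorem face_u (hρ : ∀ x, ρ (u x) = u (r0 σ τ x)) (hα : ∀ x, α (u x) = u (a0 E x)) (x : E × Bool) :
    (ρ * α) (u x) = u (f0 σ τ x) := by
  rw [Perm.mul_apply, hα, hρ, r0_a0]

theorem euler_eq [Finite E] (hρ : ∀ x, ρ (u x) = u (r0 σ τ x)) (hα : ∀ x, α (u x) = u (a0 E x)) :
    cyc ρ + cyc (ρ * α) = cycles σ + cycles τ + cycles (σ * τ) := by
  change cycles ρ + cycles (ρ * α) = _
  rw [← cycles_congr u hρ, ← cycles_congr u (face_u hρ hα), cycles_f0, cycles_r0, add_comm]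

theorem period_true (hρ : ∀ x, ρ (u x) = u (r0 σ τ x)) (hα : ∀ x, α (u x) = u (a0 E x)) (e : E) :
    minimalPeriod (ρ * α) (u (e, true)) = minimalPeriod σ e :=
  period_eq (j := fun e => u (e, true)) (fun _ _ h => (Prod.ext_iff.1 (u.injective h)).1)
    (fun _ => face_u hρ hα _) e

theorem period_false (hρ : ∀ x, ρ (u x) = u (r0 σ τ x)) (hα : ∀ x, α (u x) = u (a0 E x)) (e : E) :
    minimalPeriod (ρ * α) (u (e, false)) = minimalPeriod τ e :=
  period_eq (j := fun e => u (e, false)) (fun _ _ h => (Prod.ext_iff.1 (u.injective h)).1)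
    (fun _ => face_u hρ hα _) e

theorem conn_of [Finite E] (hρ : ∀ x, ρ (u x) = u (r0 σ τ x)) (hα : ∀ x, α (u x) = u (a0 E x))
    (h : MulAction.IsPretransitive (Subgroup.closure {σ, τ}) E) :
    MulAction.IsPretransitive (Subgroup.closure {ρ, α}) X := by
  refine pretrans_of_map h _ (fun e => u (e, true))
    (fun e => ⟨ρ * α, mul_mem (mem_left _ _) (mem_right _ _), face_u hρ hα _⟩)
    (fun e => ⟨α * ρ, mul_mem (mem_right _ _) (mem_left _ _), by
      rw [Perm.mul_apply, hρ, hα]; rfl⟩) fun y => ?_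
  obtain ⟨⟨e, _ | _⟩, rfl⟩ := u.surjective y
  · exact ⟨e, α, mem_right _ _, hα _⟩
  · exact ⟨e, 1, one_mem _, rfl⟩

theorem conn_to [Finite X] (hρ : ∀ x, ρ (u x) = u (r0 σ τ x)) (hα : ∀ x, α (u x) = u (a0 E x))
    (h : MulAction.IsPretransitive (Subgroup.closure {ρ, α}) X) :
    MulAction.IsPretransitive (Subgroup.closure {σ, τ}) E := by
  refine pretrans_of_map h _ (fun x => (u.symm x).1) (fun y => ?_) (fun y => ?_)
    fun e => ⟨u (e, true), 1, one_mem _, by simp⟩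
  · obtain ⟨⟨e, _ | _⟩, rfl⟩ := u.surjective y
    · exact ⟨σ, mem_left _ _, by simp [hρ]⟩
    · exact ⟨τ, mem_right _ _, by simp [hρ]⟩
  · obtain ⟨⟨e, b⟩, rfl⟩ := u.surjective y
    exact ⟨1, one_mem _, by simp [hα]⟩

end Model

variable {D₁ D₂ : Set ℕ} {n : ℕ}

/-- The map `m` is encoded by `em`. -/
def Enc (em : EMap D₁ D₂ n) (m : PMap n) : Prop :=
  ∃ u : Fin n × Bool ≃ Fin (2 * n), (∀ x, m.ρ (u x) = u (r0 em.σ em.τ x)) ∧
    (∀ x, m.α (u x) = u (a0 _ x)) ∧ m.root = u (em.root, true)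

theorem PMap.black_col (m : PMap n) (h : m.Eulerian) : m.IsCol (m.black h) :=
  (Exists.choose_spec (m.existsUnique_col h)).1

theorem exists_map (em : EMap D₁ D₂ n) : ∃ m : PMap n, m.Adm D₁ D₂ ∧ Enc em m := by
  let u : Fin n × Bool ≃ Fin (2 * n) := Fintype.equivFinOfCardEq (by simp [mul_comm])
  have hρ : ∀ x, u.permCongr (r0 em.σ em.τ) (u x) = u (r0 em.σ em.τ x) := fun x => by simp
  have hα : ∀ x, u.permCongr (a0 _) (u x) = u (a0 _ x) := fun x => by simp
  let m : PMap n :=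
    { ρ := u.permCongr (r0 em.σ em.τ)
      α := u.permCongr (a0 _)
      root := u (em.root, true)
      invol := fun d => by
        obtain ⟨⟨e, b⟩, rfl⟩ := u.surjective d
        simp
      free := fun d => by
        obtain ⟨⟨e, b⟩, rfl⟩ := u.surjective d
        simp
      conn := conn_of hρ hα em.conn
      euler := (euler_eq hρ hα).trans em.planar }
  have hE : m.Eulerian := even_period (c := fun d => (u.symm d).2) fun d => by
    obtain ⟨⟨e, _ | _⟩, rfl⟩ := u.surjective d <;> simp [m]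
  have hc : m.IsCol fun d => (u.symm d).2 := by
    refine ⟨fun d => ?_, fun d => ?_, by simp [m]⟩ <;>
      obtain ⟨⟨e, _ | _⟩, rfl⟩ := u.surjective d <;> simp [m]
  refine ⟨m, ⟨hE, fun d => ?_⟩, u, hρ, hα, rfl⟩
  rw [(m.existsUnique_col hE).unique (m.black_col hE) hc]
  obtain ⟨⟨e, _ | _⟩, rfl⟩ := u.surjective d
  · refine ⟨by simp, fun _ => ?_⟩
    exact (period_false hρ hα e).symm ▸ em.white e
  · refine ⟨fun _ => ?_, by simp⟩
    exact (period_true hρ hα e).symm ▸ em.black e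

theorem exists_enc (m : PMap n) (h : m.Adm D₁ D₂) : ∃ em : EMap D₁ D₂ n, Enc em m := by
  classical
  obtain ⟨hE, hd⟩ := h
  obtain ⟨h1, h2, h3⟩ := m.black_col hE
  set c := m.black hE
  have h2' : ∀ d, c (m.α d) = !c d := fun d => by
    have := h2 d
    revert this
    cases c (m.α d) <;> cases c d <;> simp
  let w : {d // c d = true} × Bool ≃ Fin (2 * n) := Equiv.ofBijective
    (fun x => cond x.2 x.1.1 (m.α x.1.1)) (by
      constructor
      · rintro ⟨⟨a, ha⟩, _ | _⟩ ⟨⟨b, hb⟩, _ | _⟩ hab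
        · simpa using hab
        · have : c (m.α a) = c b := congrArg c hab
          simp [h2', ha, hb] at this
        · have : c a = c (m.α b) := congrArg c hab
          simp [h2', ha, hb] at this
        · simpa using hab
      · intro d
        cases hd : c d
        · exact ⟨(⟨m.α d, by simp [h2', hd]⟩, false), m.invol d⟩
        · exact ⟨(⟨d, hd⟩, true), rfl⟩)
  have hcard : Fintype.card {d // c d = true} = n := by
    have := Fintype.card_congr w
    simp only [Fintype.card_prod, Fintype.card_bool, Fintype.card_fin] at this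
    omega
  let u : Fin n × Bool ≃ Fin (2 * n) :=
    (Equiv.prodCongr (Fintype.equivFinOfCardEq hcard).symm (Equiv.refl Bool)).trans w
  have hc : ∀ x, c (u x) = x.2 := by
    rintro ⟨e, _ | _⟩
    · exact (h2' _).trans (congrArg (!·) ((Fintype.equivFinOfCardEq hcard).symm e).2)
    · exact ((Fintype.equivFinOfCardEq hcard).symm e).2
  have hα : ∀ x, m.α (u x) = u (a0 _ x) := by
    rintro ⟨e, _ | _⟩
    · exact m.invol _
    · rfl
  obtain ⟨σ, τ, hF⟩ := exists_f0 (u.symm.permCongr (m.ρ * m.α)) fun x => by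
    rw [← hc, ← hc x, ← h1 (u x)]
    simp
  have hρ : ∀ x, m.ρ (u x) = u (r0 σ τ x) := fun x => by
    rw [r0, Perm.mul_apply, ← hF, ← m.invol (u x), hα x]
    simp
  refine ⟨⟨σ, τ, (u.symm m.root).1, conn_to hρ hα m.conn, (euler_eq hρ hα).symm.trans m.euler,
    fun e => period_true hρ hα e ▸ (hd _).1 (hc _),
    fun e => period_false hρ hα e ▸ (hd _).2 (hc _)⟩, u, hρ, hα, ?_⟩
  have := hc (u.symm m.root)
  rw [u.apply_symm_apply, h3] at this
  exact (u.apply_symm_apply _).symm.trans (congrArg u (Prod.ext rfl this.symm))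

theorem iso_iff {em em' : EMap D₁ D₂ n} {m m' : PMap n} (h : Enc em m) (h' : Enc em' m') :
    H85.Iso em em' ↔ m.Iso m' := by
  obtain ⟨u, hρ, hα, hr⟩ := h
  obtain ⟨u', hρ', hα', hr'⟩ := h'
  constructor
  · rintro ⟨g, h1, h2, h3⟩
    let G : Perm (Fin (2 * n)) := u.symm.trans ((Equiv.prodCongr g (Equiv.refl Bool)).trans u')
    have hG : ∀ e b, G (u (e, b)) = u' (g e, b) := fun e b => by simp [G]
    refine ⟨G, ?_, ?_, by rw [hr, hr', hG, h3]⟩ <;> rw [eq_mul_inv_iff_mul_eq] <;> ext1 d <;>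
      obtain ⟨⟨e, _ | _⟩, rfl⟩ := u.surjective d <;>
      simp [hG, hρ, hρ', hα, hα', h1, h2]
  · rintro ⟨G, h1, h2, h3⟩
    let H : Perm (Fin n × Bool) := u.trans (G.trans u'.symm)
    have hH : ∀ x, u' (H x) = G (u x) := fun x => by simp [H]
    have ha : ∀ x, H (a0 _ x) = a0 _ (H x) := fun x => u'.injective (by
      rw [hH, ← hα, ← hα', hH, h2]; simp)
    have hb : ∀ x, H (r0 em.σ em.τ x) = r0 em'.σ em'.τ (H x) := fun x => u'.injective (by
      rw [hH, ← hρ, ← hρ', hH, h1]; simp)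
    have hroot : H (em.root, true) = (em'.root, true) := u'.injective (by
      rw [hH, ← hr, ← hr', h3])
    have hs : (fun x => (H x).2) = fun x => x.2 := by
      refine col_unique (ρ := r0 em.σ em.τ) (α := a0 _) (fun ⟨e, b⟩ => by simp)
        (conn_of (u := Equiv.refl _) (fun _ => rfl) (fun _ => rfl) em.conn) (fun x => ?_)
        (fun x => ?_) (fun x => ?_) (fun x => ?_) (r := (em.root, true)) (by simp [hroot])
      · rw [hb, ha]
        obtain ⟨e, _ | _⟩ := H x <;> rfl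
      · rw [ha]
        obtain ⟨e, _ | _⟩ := H x <;> simp
      · obtain ⟨e, _ | _⟩ := x <;> rfl
      · obtain ⟨e, _ | _⟩ := x <;> simp
    obtain ⟨g, g', hg⟩ := exists_f0 H (congrFun hs)
    rw [hg] at ha hb hroot
    have e : g' = g := Equiv.ext fun e => by simpa using ha (e, true)
    subst e
    refine ⟨g', ?_, ?_, by simpa using hroot.symm⟩ <;> rw [eq_mul_inv_iff_mul_eq] <;> ext1 e
    · simpa using (hb (e, false)).symm
    · simpa using (hb (e, true)).symm

theorem card_quot_eq {A B : Type} (r : A → A → Prop) (s : B → B → Prop) (R : A → B → Prop)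
    (hr : ∀ a, r a a) (hs : ∀ b, s b b) (h1 : ∀ a, ∃ b, R a b) (h2 : ∀ b, ∃ a, R a b)
    (h : ∀ a a' b b', R a b → R a' b' → (r a a' ↔ s b b')) :
    Nat.card (Quot r) = Nat.card (Quot s) := by
  choose f hf using h1
  choose g hg using h2
  refine Nat.card_congr ⟨Quot.map f fun a a' e => (h _ _ _ _ (hf a) (hf a')).1 e,
    Quot.map g fun b b' e => (h _ _ _ _ (hg b) (hg b')).2 e, ?_, ?_⟩
  · rintro ⟨a⟩
    exact Quot.sound ((h _ _ _ _ (hg _) (hf a)).2 (hs _))
  · rintro ⟨b⟩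
    exact Quot.sound ((h _ _ _ _ (hf _) (hg b)).1 (hr _))

theorem count_eq (D₁ D₂ : Set ℕ) (n : ℕ) : count D₁ D₂ n = H85.count D₁ D₂ n :=
  (card_quot_eq _ _ (fun em (m : {m : PMap n // m.Adm D₁ D₂}) => Enc em m.1)
    (fun _ => ⟨1, by simp, by simp, rfl⟩) (fun _ => ⟨1, by simp, by simp, rfl⟩)
    (fun em => let ⟨m, hm, he⟩ := exists_map em; ⟨⟨m, hm⟩, he⟩)
    (fun m => exists_enc m.1 m.2) fun _ _ _ _ h h' => iso_iff h h').symm

end Pool.Agent.MP_098ecc_co.H66
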