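import Pool.Agent.MP_098ecc_co.H85.Defs

/-! The faces of an Eulerian map of genus zero have a proper two-colouring. -/

set_option autoImplicit false

namespace Pool.Agent.MP_098ecc_co.H66

open Equiv Module
open Pool.Agent.MP_098ecc_co.H85 (cycles)

variable {X : Type}

/-- Induction over a transitive pair of permutations. -/
theorem trans_ind [Finite X] {ρ α : Perm X}
    (h : MulAction.IsPretransitive (Subgroup.closure {ρ, α}) X) (P : X → Prop) {x : X} (hx : P x)
    (hρ : ∀ y, P y → P (ρ y)) (hα : ∀ y, P y → P (α y)) (y : X) : P y := by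
  obtain ⟨⟨g, hg⟩, rfl⟩ := h.exists_smul_eq x y
  change P (g x)
  rw [← Subgroup.mem_toSubmonoid, Subgroup.closure_toSubmonoid_of_finite] at hg
  induction hg using Submonoid.closure_induction_left with
  | one => exact hx
  | mul_left a ha b _ ih =>
    rcases ha with rfl | rfl
    · exact hρ _ ih
    · exact hα _ ih

/-- Functions invariant under a permutation. -/
def fix (π : Perm X) : Submodule (ZMod 2) (X → ZMod 2) where
  carrier := {f | ∀ x, f (π x) = f x}
  add_mem' {f g} hf hg x := by simp only [Pi.add_apply, hf x, hg x]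
  zero_mem' _ := rfl
  smul_mem' c f hf x := by simp only [Pi.smul_apply, hf x]

theorem fix_zpow {π : Perm X} {β : Type} {f : X → β} (hf : ∀ x, f (π x) = f x) (k : ℤ) (x : X) :
    f ((π ^ k) x) = f x := by
  induction k using Int.induction_on generalizing x with
  | zero => rfl
  | succ k ih => rw [zpow_add_one, Perm.mul_apply, ih, hf]
  | pred k ih =>
    rw [zpow_sub_one, Perm.mul_apply, ih, ← hf (π⁻¹ x)]
    simp

theorem finrank_fix [Finite X] (π : Perm X) : finrank (ZMod 2) (fix π) = cycles π := by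
  classical
  let Q := MulAction.orbitRel.Quotient (Subgroup.zpowers π) X
  have := Fintype.ofFinite Q
  let L : (Q → ZMod 2) →ₗ[ZMod 2] (X → ZMod 2) :=
    LinearMap.funLeft (ZMod 2) (ZMod 2) (Quotient.mk'' : X → Q)
  have hL : Function.Injective L :=
    LinearMap.funLeft_injective_of_surjective _ _ _ Quotient.mk''_surjective
  have hr : LinearMap.range L = fix π := by
    ext f
    constructor
    · rintro ⟨g, rfl⟩ x
      change g _ = g _
      congr 1
      exact Quotient.sound' ⟨⟨π, Subgroup.mem_zpowers π⟩, rfl⟩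
    · intro hf
      refine ⟨fun q => Quotient.liftOn' q f ?_, rfl⟩
      rintro a b ⟨⟨_, k, rfl⟩, rfl⟩
      exact fix_zpow hf k b
  rw [← hr, LinearMap.finrank_range_of_inj hL, finrank_fintype_fun_eq_card, cycles,
    Nat.card_eq_fintype_card]

theorem finrank_inf_le [Finite X] {ρ α : Perm X}
    (h : MulAction.IsPretransitive (Subgroup.closure {ρ, α}) X)
    (W : Submodule (ZMod 2) (X → ZMod 2)) (hρ : W ≤ fix ρ) (hα : W ≤ fix α) :
    finrank (ZMod 2) W ≤ 1 := by
  refine (Submodule.finrank_mono (t := Submodule.span (ZMod 2) {(1 : X → ZMod 2)}) ?_).trans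
    (finrank_span_le_card _ |>.trans (by simp))
  intro f hf
  rcases isEmpty_or_nonempty X with _ | ⟨⟨x⟩⟩
  · rw [Subsingleton.elim f 0]
    exact zero_mem _
  · refine Submodule.mem_span_singleton.2 ⟨f x, funext fun y => ?_⟩
    have : f y = f x := trans_ind h (fun y => f y = f x) rfl (fun y hy => (hρ hf y).trans hy)
      (fun y hy => (hα hf y).trans hy) y
    simp [this]

theorem sum_fix_even [Fintype X] {ρ : Perm X} (he : ∀ x, Even (Function.minimalPeriod ρ x))
    {f : X → ZMod 2} (hf : f ∈ fix ρ) : ∑ x, f x = 0 := by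
  have hp : ∀ x, x ∈ Function.periodicPts ρ := fun x =>
    Function.mem_periodicPts.2 ⟨orderOf ρ, orderOf_pos ρ, by
      rw [Function.IsPeriodicPt, Function.IsFixedPt, Perm.iterate_eq_pow, pow_orderOf_eq_one]
      rfl⟩
  have hi : ∀ k x, f (ρ^[k] x) = f x := fun k x => by
    rw [Perm.iterate_eq_pow, ← zpow_natCast]
    exact fix_zpow hf k x
  refine Finset.sum_involution (fun x _ => ρ^[Function.minimalPeriod ρ x / 2] x) ?_ ?_
    (fun _ _ => Finset.mem_univ _) ?_
  · intro x _
    rw [hi, CharTwo.add_self_eq_zero]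
  · intro x _ _ hx
    have h0 := Function.minimalPeriod_pos_of_mem_periodicPts (hp x)
    obtain ⟨k, hk⟩ := he x
    have := Function.IsPeriodicPt.minimalPeriod_le (n := Function.minimalPeriod ρ x / 2)
      (by omega) hx
    omega
  · intro x _
    rw [Function.minimalPeriod_apply_iterate (hp x), ← Function.iterate_add_apply]
    obtain ⟨k, hk⟩ := he x
    rw [show Function.minimalPeriod ρ x / 2 + Function.minimalPeriod ρ x / 2 =
      Function.minimalPeriod ρ x by omega]
    exact Function.iterate_minimalPeriod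

theorem exists_col [Fintype X] {ρ α : Perm X} {n : ℕ} (hn : Fintype.card X = 2 * n)
    (hi : ∀ x, α (α x) = x) (hf : ∀ x, α x ≠ x)
    (h : MulAction.IsPretransitive (Subgroup.closure {ρ, α}) X)
    (hp : cycles ρ + cycles (ρ * α) = n + 2) (he : ∀ x, Even (Function.minimalPeriod ρ x)) :
    ∃ c : X → ZMod 2, (∀ x, c (ρ (α x)) = c x) ∧ ∀ x, c x + c (α x) = 1 := by
  classical
  let B : LinearMap.BilinForm (ZMod 2) (X → ZMod 2) := Matrix.toBilin' 1
  have hB : B.Nondegenerate := LinearMap.BilinForm.nondegenerate_toBilin'_of_det_ne_zero' _ (by simp)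
  have hB' : ∀ f g, B f g = ∑ x, f x * g x := fun f g => by
    simp only [B, Matrix.toBilin'_apply', Matrix.one_mulVec, dotProduct]
  let δ : (X → ZMod 2) →ₗ[ZMod 2] (X → ZMod 2) :=
    LinearMap.id + LinearMap.funLeft (ZMod 2) (ZMod 2) α
  have hδ : ∀ f x, δ f x = f x + f (α x) := fun _ _ => rfl
  have hker : ∀ f, δ f = 0 ↔ f ∈ fix α := fun f =>
    ⟨fun hf x => (CharTwo.add_eq_zero.1 (congrFun hf x)).symm,
      fun hf => funext fun x => by rw [hδ, hf x, CharTwo.add_self_eq_zero]; rfl⟩
  have hran : ∀ f, δ f ∈ fix α := fun f x => by rw [hδ, hδ, hi, add_comm]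
  have hV : finrank (ZMod 2) (X → ZMod 2) = 2 * n := by rw [finrank_fintype_fun_eq_card, hn]
  have hA : n ≤ finrank (ZMod 2) (fix α) := by
    have h1 := δ.finrank_range_add_finrank_ker
    have h2 : finrank (ZMod 2) (LinearMap.range δ) ≤ finrank (ZMod 2) (fix α) :=
      Submodule.finrank_mono (by rintro _ ⟨f, rfl⟩; exact hran f)
    have h3 : finrank (ZMod 2) (LinearMap.ker δ) ≤ finrank (ZMod 2) (fix α) :=
      Submodule.finrank_mono fun f hf => (hker f).1 hf
    omega
  have hAA : ∀ f ∈ fix α, ∀ g ∈ fix α, B f g = 0 := fun f hf' g hg => by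
    rw [hB']
    exact Finset.sum_involution (fun x _ => α x)
      (fun x _ => by rw [hf' x, hg x, CharTwo.add_self_eq_zero]) (fun x _ _ => hf x)
      (fun _ _ => Finset.mem_univ _) fun x _ => hi x
  have h1 := Submodule.finrank_sup_add_finrank_inf_eq (fix α) (fix ρ)
  have h2 := finrank_inf_le h (fix α ⊓ fix ρ) inf_le_right inf_le_left
  have h3 := LinearMap.BilinForm.finrank_orthogonal hB (fix α ⊔ fix ρ)
  have h4 := (δ.domRestrict (fix (ρ * α))).finrank_range_add_finrank_ker
  have h5 : finrank (ZMod 2) (LinearMap.ker (δ.domRestrict (fix (ρ * α)))) ≤ 1 := by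
    rw [← Submodule.finrank_map_subtype_eq]
    refine finrank_inf_le h _ ?_ ?_
    · rintro _ ⟨⟨f, hf1⟩, hf2, rfl⟩ x
      have := hf1 (α x)
      rw [Perm.mul_apply, hi] at this
      exact this.trans ((hker f).1 hf2 x)
    · rintro _ ⟨⟨f, hf1⟩, hf2, rfl⟩
      exact (hker f).1 hf2
  have h6 : LinearMap.range (δ.domRestrict (fix (ρ * α))) ≤ B.orthogonal (fix α ⊔ fix ρ) := by
    rintro _ ⟨⟨c, hc⟩, rfl⟩ g hg
    obtain ⟨a, ha, b, hb, rfl⟩ := Submodule.mem_sup.1 hg
    change B (a + b) (δ c) = 0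
    rw [map_add, LinearMap.add_apply, hAA a ha _ (hran c), zero_add, hB']
    have e : ∑ x, b x * c (α x) = ∑ x, b x * c x := by
      rw [← Equiv.sum_comp ρ fun x => b x * c x]
      refine Finset.sum_congr rfl fun x _ => ?_
      rw [hb x, ← hc (α x), Perm.mul_apply, hi]
    simp only [hδ, mul_add, Finset.sum_add_distrib, e, CharTwo.add_self_eq_zero]
  rw [finrank_fix ρ] at h1
  rw [finrank_fix] at h4
  have h7 := Submodule.eq_of_le_of_finrank_le h6 (by omega)
  have h8 : (1 : X → ZMod 2) ∈ B.orthogonal (fix α ⊔ fix ρ) := by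
    intro g hg
    obtain ⟨a, ha, b, hb, rfl⟩ := Submodule.mem_sup.1 hg
    change B (a + b) 1 = 0
    rw [map_add, LinearMap.add_apply, hAA a ha 1 fun _ => rfl, zero_add, hB']
    simpa using sum_fix_even he hb
  rw [← h7] at h8
  obtain ⟨⟨c, hc⟩, hc1⟩ := h8
  exact ⟨c, hc, fun x => congrFun hc1 x⟩

theorem col_unique [Finite X] {ρ α : Perm X} (hi : ∀ x, α (α x) = x)
    (h : MulAction.IsPretransitive (Subgroup.closure {ρ, α}) X) {c c' : X → Bool}
    (h1 : ∀ x, c (ρ (α x)) = c x) (h2 : ∀ x, c (α x) ≠ c x) (h1' : ∀ x, c' (ρ (α x)) = c' x)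
    (h2' : ∀ x, c' (α x) ≠ c' x) {r : X} (hr : c r = c' r) : c = c' := by
  have ha : ∀ y, c y = c' y → c (α y) = c' (α y) := fun y hy => by
    have a := h2 y
    have b := h2' y
    revert a b hy
    cases c y <;> cases c' y <;> cases c (α y) <;> cases c' (α y) <;> simp
  refine funext (trans_ind h (fun y => c y = c' y) hr (fun y hy => ?_) ha)
  have a := h1 (α y)
  have b := h1' (α y)
  rw [hi] at a b
  rw [a, b, ha y hy]

theorem existsUnique_col_aux [Fintype X] {ρ α : Perm X} {n : ℕ} (hn : Fintype.card X = 2 * n)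
    (hi : ∀ x, α (α x) = x) (hf : ∀ x, α x ≠ x)
    (h : MulAction.IsPretransitive (Subgroup.closure {ρ, α}) X)
    (hp : cycles ρ + cycles (ρ * α) = n + 2) (he : ∀ x, Even (Function.minimalPeriod ρ x))
    (r : X) :
    ∃! c : X → Bool, (∀ x, c (ρ (α x)) = c x) ∧ (∀ x, c (α x) ≠ c x) ∧ c r = true := by
  obtain ⟨c, h1, h2⟩ := exists_col hn hi hf h hp he
  have key : ∀ x, decide (c (α x) = c r) ≠ decide (c x = c r) := fun x => by
    have := h2 x
    revert this
    generalize c x = u
    generalize c (α x) = v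
    generalize c r = w
    revert u v w
    decide
  refine ⟨fun x => decide (c x = c r), ⟨fun x => by simp only [h1], key, by simp⟩, ?_⟩
  rintro c' ⟨a1, a2, a3⟩
  exact col_unique hi h a1 a2 (fun x => by simp only [h1]) key (r := r) (by simp [a3])

end Pool.Agent.MP_098ecc_co.H66
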