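import Pool.Agent.MP_098ecc_co.H66.Col

set_option autoImplicit false

namespace Pool.Agent.MP_098ecc_co.H66

open Equiv

/-- The number of cycles of a permutation, fixed points included. -/
noncomputable def cyc {X : Type} (π : Perm X) : ℕ :=
  Nat.card (MulAction.orbitRel.Quotient (Subgroup.zpowers π) X)

/-- A rooted planar map with `n` edges, given by its rotation system on the `2 n` darts (oriented
edges). `α d` is the dart `d` reversed and `ρ d` is the next dart counterclockwise around the origin
of `d`. The cycles of `α` are the edges, the cycles of `ρ` the vertices, and the cycle of `d` under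
`ρ * α` is the face to the right of `d`. The map is connected and `V - E + F = 2`. -/
structure PMap (n : ℕ) where
  ρ : Perm (Fin (2 * n))
  α : Perm (Fin (2 * n))
  root : Fin (2 * n)
  invol : ∀ d, α (α d) = d
  free : ∀ d, α d ≠ d
  conn : MulAction.IsPretransitive (Subgroup.closure {ρ, α}) (Fin (2 * n))
  euler : cyc ρ + cyc (ρ * α) = n + 2

/-- Every vertex has even degree. -/
def PMap.Eulerian {n : ℕ} (m : PMap n) : Prop := ∀ d, Even (Function.minimalPeriod m.ρ d)

/-- `c d` is the colour of the face to the right of `d` in a proper two-colouring of the faces in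
which the face to the right of the root is black (`true`). -/
def PMap.IsCol {n : ℕ} (m : PMap n) (c : Fin (2 * n) → Bool) : Prop :=
  (∀ d, c (m.ρ (m.α d)) = c d) ∧ (∀ d, c (m.α d) ≠ c d) ∧ c m.root = true

theorem PMap.existsUnique_col {n : ℕ} (m : PMap n) (h : m.Eulerian) : ∃! c, m.IsCol c :=
  existsUnique_col_aux (Fintype.card_fin _) m.invol m.free m.conn m.euler h m.root

/-- The colouring of an Eulerian map. -/
noncomputable def PMap.black {n : ℕ} (m : PMap n) (h : m.Eulerian) : Fin (2 * n) → Bool :=
  Exists.choose (m.existsUnique_col h)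

/-- Eulerian, black face degrees in `D₁`, white face degrees in `D₂`. -/
def PMap.Adm {n : ℕ} (m : PMap n) (D₁ D₂ : Set ℕ) : Prop :=
  ∃ h : m.Eulerian, ∀ d,
    (m.black h d = true → Function.minimalPeriod (m.ρ * m.α) d ∈ D₁) ∧
    (m.black h d = false → Function.minimalPeriod (m.ρ * m.α) d ∈ D₂)

/-- Isomorphism of rooted maps: a relabelling of the darts. -/
def PMap.Iso {n : ℕ} (m m' : PMap n) : Prop :=
  ∃ g : Perm (Fin (2 * n)), m'.ρ = g * m.ρ * g⁻¹ ∧ m'.α = g * m.α * g⁻¹ ∧ m'.root = g m.root

/-- The number of rooted Eulerian planar maps with `n` edges and the prescribed face degrees. -/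
noncomputable def count (D₁ D₂ : Set ℕ) (n : ℕ) : ℕ :=
  Nat.card (Quot fun m m' : {m : PMap n // m.Adm D₁ D₂} => m.1.Iso m'.1)

/-- Eventually periodic sets. -/
def EvPer (D : Set ℕ) : Prop := ∃ p, 0 < p ∧ ∃ N, ∀ n, N ≤ n → (n + p ∈ D ↔ n ∈ D)

end Pool.Agent.MP_098ecc_co.H66
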